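import Pool.Agent.H16.CX.Basic

/-!
# Twins and adjacent elements (module TWI)
-/

set_option autoImplicit false

open Set Topology Filter MeasureTheory

namespace Pool.Agent.H16.CXS

open Pool.Agent.H16.CX

lemma tw_symm {X : Type} [MetricSpace X] (R : RS X) (x : X) {a b : ℕ} (h : Tw R x a b) :
    Tw R x b a := by
  intro c hc
  have h1 : ∀ j, (c.trans (pe (Equiv.swap a b))) j ≠ b := by
    intro j hj
    change Equiv.swap a b (c j) = b at hj
    apply hc j
    have h2 := congrArg (Equiv.swap a b) hj
    rwa [Equiv.swap_apply_self, Equiv.swap_apply_right] at h2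
  have h2 := h _ h1
  have h3 : (c.trans (pe (Equiv.swap a b))).trans (pe (Equiv.swap a b)) = c := by
    ext j
    change Equiv.swap a b (Equiv.swap a b (c j)) = c j
    exact Equiv.swap_apply_self _ _ _
  rw [h3] at h2
  rw [Equiv.swap_comm b a]
  exact h2.symm

lemma chain_iff {L : ℕ → ℕ → Prop} (hL : Ord L) {u : ℕ → ℕ} (h : ∀ i, L (u i) (u (i + 1)))
    (i j : ℕ) : L (u i) (u j) ↔ i < j := by
  have h1 : ∀ i k, L (u i) (u (i + 1 + k)) := by
    intro i k
    induction k with
    | zero => exact h i
    | succ k ih => exact hL.2.1 _ _ _ ih (h _)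
  have h2 : ∀ i j, i < j → L (u i) (u j) := by
    intro i j hij
    obtain ⟨k, rfl⟩ := Nat.exists_eq_add_of_le hij
    exact h1 i k
  refine ⟨fun h3 => ?_, h2 i j⟩
  by_contra hij
  rcases Nat.lt_or_ge j i with h4 | h4
  · exact hL.1 _ (hL.2.1 _ _ _ h3 (h2 j i h4))
  · have : i = j := by omega
    subst this
    exact hL.1 _ h3

/-- the glued sequence -/
def glue (p : ℕ) (dn up : ℕ → ℕ) (x0 x1 : ℕ) (i : ℕ) : ℕ :=
  if i < p then dn (p - 1 - i) else if i = p then x0 else if i = p + 1 then x1
    else up (i - (p + 2))

lemma glue_chain {L : ℕ → ℕ → Prop} {p : ℕ} {dn up : ℕ → ℕ} {x0 x1 : ℕ}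
    (hd : ∀ n, L (dn (n + 1)) (dn n)) (hu : ∀ n, L (up n) (up (n + 1)))
    (h0 : L (dn 0) x0) (h1 : L x0 x1) (h2 : L x1 (up 0)) (i : ℕ) :
    L (glue p dn up x0 x1 i) (glue p dn up x0 x1 (i + 1)) := by
  unfold glue
  rcases Nat.lt_or_ge (i + 1) p with h | h
  · rw [if_pos (by omega), if_pos h]
    have : p - 1 - i = (p - 1 - (i + 1)) + 1 := by omega
    rw [this]
    exact hd _
  · rcases Nat.lt_or_ge p (i + 1) with h' | h'
    · rcases Nat.lt_or_ge i (p + 1) with h3 | h3
      · have : i = p := by omega
        subst this
        rw [if_neg (by omega), if_pos rfl, if_neg (by omega), if_neg (by omega), if_pos rfl]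
        exact h1
      · rcases Nat.lt_or_ge (p + 1) i with h4 | h4
        · rw [if_neg (by omega), if_neg (by omega), if_neg (by omega), if_neg (by omega),
            if_neg (by omega), if_neg (by omega)]
          have : i + 1 - (p + 2) = (i - (p + 2)) + 1 := by omega
          rw [this]
          exact hu _
        · have : i = p + 1 := by omega
          subst this
          rw [if_neg (by omega), if_neg (by omega), if_pos rfl, if_neg (by omega),
            if_neg (by omega), if_neg (by omega)]
          have : p + 1 + 1 - (p + 2) = 0 := by omega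
          rw [this]
          exact h2
    · have hp : p = i + 1 := by omega
      subst hp
      rw [if_pos (by omega), if_neg (by omega), if_pos rfl]
      have : i + 1 - 1 - i = 0 := by omega
      rw [this]
      exact h0

/-- (TWI) the twins of `z L` are the adjacent elements of `L` -/
theorem pf_twi : T_TWI := by
  intro X _ R w z hz p hp L hL hinf a b hab
  have hup : ∀ x, ∃ y, L x y := fun x => (hinf x).1.nonempty
  have hdn : ∀ x, ∃ y, L y x := fun x => (hinf x).2.nonempty
  constructor
  · -- twins are adjacent
    intro htw hex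
    -- the main step
    have key : ∀ a b d, L a d → L d b → Tw R (z L) a b → False := by
      intro a b d had hdb htw
      have hlt : L a b := hL.2.1 _ _ _ had hdb
      have hne : a ≠ b := fun h => hL.1 a (by rw [← h] at hlt; exact hlt)
      choose U hU using hup
      choose Dn hDn using hdn
      let up : ℕ → ℕ := fun n => Nat.rec (U b) (fun _ x => U x) n
      let dn : ℕ → ℕ := fun n => Nat.rec (Dn a) (fun _ x => Dn x) n
      have hu0 : L b (up 0) := hU b
      have hu : ∀ n, L (up n) (up (n + 1)) := fun n => hU _
      have hd0 : L (dn 0) a := hDn a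
      have hd : ∀ n, L (dn (n + 1)) (dn n) := fun n => hDn _
      let c : ℕ → ℕ := glue p dn up a d
      let e : ℕ → ℕ := glue p dn up d b
      have hc : ∀ i j, L (c i) (c j) ↔ i < j :=
        chain_iff hL (glue_chain hd hu hd0 had (hL.2.1 _ _ _ hdb hu0))
      have he : ∀ i j, L (e i) (e j) ↔ i < j :=
        chain_iff hL (glue_chain hd hu (hL.2.1 _ _ _ hd0 had) hdb hu0)
      have hcinj : Function.Injective c := by
        intro i j hij
        by_contra hne
        rcases Nat.lt_or_ge i j with h1 | h1
        · have := (hc i j).2 h1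
          rw [hij] at this
          exact hL.1 _ this
        · have := (hc j i).2 (by omega)
          rw [hij] at this
          exact hL.1 _ this
      have heinj : Function.Injective e := by
        intro i j hij
        by_contra hne
        rcases Nat.lt_or_ge i j with h1 | h1
        · have := (he i j).2 h1
          rw [hij] at this
          exact hL.1 _ this
        · have := (he j i).2 (by omega)
          rw [hij] at this
          exact hL.1 _ this
      have hcp : c p = a := by
        change glue p dn up a d p = a
        unfold glue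
        rw [if_neg (by omega), if_pos rfl]
      have hep : e (p + 1) = b := by
        change glue p dn up d b (p + 1) = b
        unfold glue
        rw [if_neg (by omega), if_neg (by omega), if_pos rfl]
      have hcp1 : c (p + 1) = d := by
        change glue p dn up a d (p + 1) = d
        unfold glue
        rw [if_neg (by omega), if_neg (by omega), if_pos rfl]
      have hep0 : e p = d := by
        change glue p dn up d b p = d
        unfold glue
        rw [if_neg (by omega), if_pos rfl]
      have hce : ∀ i, i ≠ p → i ≠ p + 1 → c i = e i := by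
        intro i h1 h2
        change glue p dn up a d i = glue p dn up d b i
        unfold glue
        split_ifs
        · rfl
        · rfl
      have hcb : ∀ j, c j ≠ b := by
        intro j hj
        by_cases h1 : j = p
        · rw [h1, hcp] at hj
          exact hne hj
        · by_cases h2 : j = p + 1
          · rw [h2, hcp1] at hj
            rw [hj] at hdb
            exact hL.1 _ hdb
          · rw [hce j h1 h2, ← hep] at hj
            exact h2 (heinj hj)
      have hswap : ∀ i, Equiv.swap a b (c i) = e (Equiv.swap p (p + 1) i) := by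
        intro i
        by_cases h1 : i = p
        · rw [h1, hcp, Equiv.swap_apply_left, Equiv.swap_apply_left, hep]
        · have h3 : c i ≠ a := by
            rw [← hcp]
            exact fun h => h1 (hcinj h)
          rw [Equiv.swap_apply_of_ne_of_ne h3 (hcb i)]
          by_cases h2 : i = p + 1
          · rw [h2, Equiv.swap_apply_right, hcp1, hep0]
          · rw [Equiv.swap_apply_of_ne_of_ne h1 h2, hce i h1 h2]
      have h1 := htw ⟨c, hcinj⟩ hcb
      rw [hz.res L hL, hz.res L hL] at h1
      have h2 : (fun i j : ℕ => L ((⟨c, hcinj⟩ : ℕ ↪ ℕ) i) ((⟨c, hcinj⟩ : ℕ ↪ ℕ) j)) =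
          fun i j => i < j := by
        funext i j
        exact propext (hc i j)
      have h3 : (fun i j : ℕ => L (((⟨c, hcinj⟩ : ℕ ↪ ℕ).trans (pe (Equiv.swap a b))) i)
          (((⟨c, hcinj⟩ : ℕ ↪ ℕ).trans (pe (Equiv.swap a b))) j)) =
          fun i j => (pe (Equiv.swap p (p + 1))) i < (pe (Equiv.swap p (p + 1))) j := by
        funext i j
        refine propext ?_
        change L (Equiv.swap a b (c i)) (Equiv.swap a b (c j)) ↔ _
        rw [hswap, hswap]
        exact he _ _
      have hlt' : Ord (fun i j : ℕ => i < j) :=
        ⟨fun i => lt_irrefl i, fun i j k => lt_trans, fun i j h => lt_or_gt_of_ne h⟩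
      rw [h2, h3, ← hz.res _ hlt', hz.base] at h1
      exact hp h1.symm
    obtain ⟨d, ⟨h1, h2⟩ | ⟨h1, h2⟩⟩ := hex
    · exact key a b d h1 h2 htw
    · exact key b a d h1 h2 (tw_symm R _ htw)
  · -- adjacent elements are twins
    intro hadj c hc
    rw [hz.res L hL, hz.res L hL]
    congr 1
    funext i j
    refine propext ?_
    change L (c i) (c j) ↔ L (Equiv.swap a b (c i)) (Equiv.swap a b (c j))
    have hA : ∀ d, d ≠ a → d ≠ b → (L a d ↔ L b d) := by
      intro d h1 h2
      constructor
      · intro h3
        rcases hL.2.2 d b h2 with h4 | h4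
        · exact absurd ⟨d, Or.inl ⟨h3, h4⟩⟩ hadj
        · exact h4
      · intro h3
        rcases hL.2.2 d a h1 with h4 | h4
        · exact absurd ⟨d, Or.inr ⟨h3, h4⟩⟩ hadj
        · exact h4
    have hB : ∀ d, d ≠ a → d ≠ b → (L d a ↔ L d b) := by
      intro d h1 h2
      constructor
      · intro h3
        rcases hL.2.2 d b h2 with h4 | h4
        · exact h4
        · exact absurd ⟨d, Or.inr ⟨h4, h3⟩⟩ hadj
      · intro h3
        rcases hL.2.2 d a h1 with h4 | h4
        · exact h4
        · exact absurd ⟨d, Or.inl ⟨h4, h3⟩⟩ hadj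
    by_cases hi : c i = a
    · by_cases hj : c j = a
      · rw [hi, hj, Equiv.swap_apply_left]
        exact ⟨fun h => absurd h (hL.1 _), fun h => absurd h (hL.1 _)⟩
      · rw [hi, Equiv.swap_apply_left, Equiv.swap_apply_of_ne_of_ne hj (hc j)]
        exact hA _ hj (hc j)
    · by_cases hj : c j = a
      · rw [hj, Equiv.swap_apply_left, Equiv.swap_apply_of_ne_of_ne hi (hc i)]
        exact hB _ hi (hc i)
      · rw [Equiv.swap_apply_of_ne_of_ne hi (hc i), Equiv.swap_apply_of_ne_of_ne hj (hc j)]

end Pool.Agent.H16.CXS
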